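import Pool.Agent.helper88.RQ2.Spec

/-!
Project RQ, row V1: the number of circuits of a collinear set of points.
-/

open Set Matroid RadonMin

namespace RadonQ2

theorem V1_proof (hGCO : GCO_stmt) : V1_stmt := by
  intro V _ _ _ X hX
  have hr : rk (affMat X) (X : Set V) ≤ 2 := (hGCO V X).2 hX
  have h1 : {C : Set V | (affMat X).IsCircuit C} =
      (fun s : Finset V => (s : Set V)) '' ((X.powersetCard 3 : Finset (Finset V)) :
        Set (Finset V)) := by
    ext C
    constructor
    · intro hC
      have hC' : (affMat X).IsCircuit C := hC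
      have hs := affMat_simp X C hC'
      have hsub : C ⊆ (X : Set V) := hC'.subset_ground
      have hrk := rk_circuit hC'
      have hmono := rk_mono (affMat X) hsub
      have hfin : C.Finite := (Finset.finite_toSet X).subset hsub
      obtain ⟨C₀, rfl⟩ : ∃ C₀ : Finset V, (C₀ : Set V) = C := ⟨hfin.toFinset, by simp⟩
      rw [ncard_coe_finset] at hs hrk
      refine ⟨C₀, ?_, rfl⟩
      rw [Finset.mem_coe, Finset.mem_powersetCard]
      exact ⟨by exact_mod_cast hsub, by omega⟩
    · rintro ⟨s, hs, rfl⟩
      rw [Finset.mem_coe, Finset.mem_powersetCard] at hs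
      have hsub : (s : Set V) ⊆ (affMat X).E := by
        rw [affMat_E]
        exact_mod_cast hs.1
      apply isCircuit_of_rk_le_two (affMat_simp X) hsub
      · rw [ncard_coe_finset]; exact hs.2
      · exact (rk_mono (affMat X) hsub).trans hr
  unfold ci cc
  rw [h1, Set.ncard_image_of_injective _ Finset.coe_injective, ncard_coe_finset,
    Finset.card_powersetCard]

end RadonQ2
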